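import Pool.Agent.W869.AV.Iso

/-!
# Isomorphisms of `P(ω₁)/Fin` and `P(ω)/Fin` are not trivial on all countable sets

The negated form of the question is a theorem of ZFC: every isomorphism from `P(ω₁)/Fin` to
`P(ω)/Fin` (if there is one) fails to be trivial on some countable subset of `ω₁`. In fact it fails
on some countable subset of each uncountable subset of `ω₁`, and the same holds for isomorphisms
from `P(Λ)/I_κ` to `P(Λ')/I_κ` if `|Λ'| ≤ κ`, for every infinite cardinal `κ`.

The proof for `κ = ω`. Suppose that the isomorphism, with representatives `F A` of the images of the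
sets `A`, is trivial on all countable subsets of an uncountable set. Choose uncountably many
disjoint countable sets and functions which induce the isomorphism on them; let `E` be the union of
these functions, `E : Λ → ω`, let `g x = E x`, and for `y` in `ω` let `g' y` be the least `n` with
`y ∈ F {x | g x = n}`. Define a set `A` by recursion on the value of `g`: put `x` into `A` iff
`g' (E x) < g x` and `E x ∉ F {z ∈ A | g z = g' (E x)}`. Since `F A` and `F {z ∈ A | g z = n}` agree
on `{y | g' y = n}` up to a finite set, all but countably many of the countable sets contain only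
finitely many points `x` with `g' (E x) < g x`. But `{y | y ≤ g' y}` is almost disjoint from all
sets `F {x | g x = n}`, so its preimage is countable: this leaves only countably many of the
countable sets, a contradiction.
-/

set_option autoImplicit false

universe u

namespace Pool.Agent.Results.MP_83972e_lc.NotTrivialOnCountable

open Cardinal Pool.Agent.W869.AV

theorem result :
    -- the negated form of the question
    (∀ φ : Quo ℵ₀ le_rfl (Ordinal.omega 1).ToType ≃o Quo ℵ₀ le_rfl ℕ,
      ∃ C : Set (Ordinal.omega 1).ToType, C.Countable ∧ ¬ IsTrivialIso φ C) ∧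
    -- the general form
    (∀ (κ : Cardinal.{u}) (hκ : ℵ₀ ≤ κ) (Λ Λ' : Type u) (φ : Quo κ hκ Λ ≃o Quo κ hκ Λ'),
      #Λ' ≤ κ → ∀ A : Set Λ, κ < #A → ∃ C ⊆ A, #C = κ ∧ ¬ IsTrivialIso φ C) := by
  refine ⟨fun φ => ?_, fun κ hκ Λ Λ' φ hΛ' A hA => exists_nontrivial hΛ' φ A hA⟩
  obtain ⟨C, -, hC, hn⟩ := exists_nontrivial (Cardinal.mk_nat.le) φ Set.univ (by
    rw [Cardinal.mk_univ, Cardinal.mk_toType, Ordinal.card_omega]
    exact Cardinal.aleph0_lt_aleph_one)
  exact ⟨C, Cardinal.le_aleph0_iff_set_countable.1 hC.le, hn⟩

end Pool.Agent.Results.MP_83972e_lc.NotTrivialOnCountable
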